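import Pool.Agent.H76.S.Sheaves

/-!
# The last model of a nef class on a threefold with h^(2,1) ≤ 1 (MP_5ee2d0)

`X` is a smooth projective simply connected threefold with `K_X ~ 0` and `x` a nef class of `X` which
is not numerically trivial and not semiample (so `x^3 = 0`). The minimal model program for a small
positive combination of the prime divisors on which `x` is numerically trivial contracts all of them
(otherwise it ends with a nonzero effective nef divisor whose product with `x` is zero; it is
semiample, and a multiple of `x` by the Hodge index theorem). So after flops of `X`, which keep `X`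
smooth and do not change the Hodge numbers, there is a birational morphism `f : X → Y`, such that `x` is
the pull-back of a class of `Y`, which is again denoted by `x`, `Y` is `ℚ`-factorial with canonical
singularities, `K_Y ~ 0`, and `x` is not numerically trivial on any prime divisor of `Y`. `H` is a very
ample class of `Y` and `S` a very general surface in `|H|`.
-/

open CategoryTheory

namespace Pool.Agent.H76.S

/-- The data of the last model. `h F i n j` is the dimension of `H^i(Y, F(n x + j H))`, where `F` is
the structure sheaf (`false`) or the reflexive tangent sheaf `T_Y = f_* T_X` (`true`). `h21` is the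
Hodge number of `X`, and `two` says that the numerical dimension of `x` is two. -/
structure Last (h21 : ℕ) (two : Prop) where
  h : Bool → ℕ → ℕ → ℕ → ℕ
  /-- the dimension of `H^1(S, F(n x + j H)|S)` -/
  hS : Bool → ℕ → ℕ → ℕ
  /-- the degree of the second Chern class of `X` on `x` -/
  c : ℤ
  /-- Miyaoka -/
  miyaoka : 0 ≤ c
  /-- Riemann-Roch theorem for `O(n x)` -/
  rr : ∀ n, 12 * ((h false 0 n 0 : ℤ) - h false 1 n 0 + h false 2 n 0 - h false 3 n 0) = n * c
  /-- Riemann-Roch theorem for `T_X(n x)`, and `T_Y = f_* T_X`; the sheaves `R^j f_* T_X`, `j > 0`, are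
  supported on points and on images of contracted prime divisors, curves of degree zero for `x`. -/
  rrT : c = 0 → ∀ n, (h true 0 n 0 : ℤ) - h true 1 n 0 + h true 2 n 0 - h true 3 n 0 =
    h true 0 0 0 - h true 1 0 0 + h true 2 0 0 - h true 3 0 0
  /-- Keel, Matsuki and McKernan: no multiple of `x` is effective -/
  kmm : ∀ n, 0 < n → h false 0 n 0 = 0
  /-- Lazić and Peternell: `x` is semiample if infinitely many of the sheaves `T_Y(n x)` have
  sections (`T_Y` is the sheaf of reflexive 2-forms) -/
  lp : ∃ n₀, ∀ n, n₀ ≤ n → h true 0 n 0 = 0
  /-- `H^3(Y, F(n x))` is dual to `Hom(F, O(-n x))`, which is zero for large `n` -/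
  top : ∀ F, ∃ n₀, ∀ n, n₀ ≤ n → h F 3 n 0 = 0
  /-- `T_Y = f_* T_X` (Greb, Kebekus, Kovács and Peternell), and `H^1(Y, f_* T_X)` is a subspace of
  `H^1(X, T_X)` -/
  defo : h true 1 0 0 ≤ h21
  /-- the Picard number of `Y` -/
  rho : ℕ
  /-- `x` and `H` are linearly independent -/
  two_le : 2 ≤ rho
  /-- By Serre duality `H^2(Y, T_Y)` is dual to `Ext^1(T_Y, O)`, which contains `H^1(Y, Hom(T_Y, O))`,
  the first cohomology of the sheaf of reflexive 1-forms, and the first Chern class is an
  injective map from the Picard group of `Y`, tensored with `ℂ`, to this space. -/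
  pic : rho ≤ h true 2 0 0
  /-- `H^3(Y, T_Y)` is dual to `Hom(T_Y, O) = H^0(X, Ω^1) = 0` -/
  forms : h true 3 0 0 = 0
  /-- Serre vanishing theorem -/
  serre : ∀ F n, ∃ j, h F 2 n j = 0
  /-- the exact sequence `0 → F(y) → F(y + H) → F(y + H)|S → 0` -/
  restr : ∀ F n j, h F 2 n j ≤ h F 2 n (j + 1) + hS F n (j + 1)
  /-- If the numerical dimension is two then the restriction of `x` to `S` is ample: otherwise, by the
  theorem of Nakai and Moishezon and since `S` is very general, curves `C` with `x.C = 0` cover `Y`,
  and `x` is semiample (nef reduction; Kawamata), or a surface, and `x` is numerically trivial on it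
  (Hodge index theorem). Fujita's vanishing theorem on `S`. -/
  fujita : two → ∀ F, ∃ n₀, ∀ n, n₀ ≤ n → ∀ j, hS F n j = 0
  /-- Let the numerical dimension be one and `G` the sheaf `O` or `T_X` on `X`. (All prime divisors which
  are contracted by `f` have degree zero for `x`.) `H^2(Y, F(b x))` is dual to `Ext^1(F, O_Y(-b x))`
  (Serre). Let `- Z` be an `f`-ample combination of the contracted prime divisors (it exists since `Y`
  is `ℚ`-factorial) with `R^j f_*(G(-Z)) = 0` for `j > 0`. By duality for `f`, which is crepant, a class in
  `Ext^1(F, O_Y(-b x))` gives a class in `Ext^1(f_*(G(-Z)), O_Y(-b x)) = Ext^1(G, O_X(Z - b x))` with the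
  same restriction to the complement of the contracted divisors, and this restriction is not zero,
  since `O_Y` has depth two along the image of these divisors. So no section of `O(Z' - Z)` kills it,
  and `Z` does not depend on `b`. -/
  one : ¬ two → ∃ (C : Type) (_ : Category.{0} C) (_ : Abelian C) (_ : HasExt.{0} C)
    (X : Sheaves C), ∀ F, (F = true → c = 0) → ∃ (G : C) (k : ℕ), X.Semi G ∧
      ∀ b : ℕ, h F 2 b 0 ≠ 0 → Alive (X.L b) G k

end Pool.Agent.H76.S
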