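import Pool.Agent.H76.S.Atlas
import Pool.Agent.H76.V.P3
import Pool.Agent.H76.V.Centres

/-!
# The structures Atlas and Connection give those of Pool.Agent.H76.V (MP_5ee2d0, Theorem V, step 1)
-/

namespace Pool.Agent.H76.S

open MeasureTheory
open scoped Matrix ENNReal

attribute [local instance] Atlas.prob

theorem Atlas.D_nonneg (A : Atlas) : 0 ≤ A.D := (norm_nonneg _).trans (A.χ_le 0 0 0)

theorem Atlas.lt_v (A : Atlas) {a : ℕ} {q : ℝ} (h : q ∈ A.B a) : a < A.v := by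
  by_contra hv
  rw [A.fin a (not_lt.1 hv)] at h
  exact h

/-- the relations of triangles -/
def Atlas.rel (A : Atlas) : Set (FreeGroup (Fin A.v × Fin A.v)) :=
  {w | ∃ t : Fin A.v × Fin A.v × Fin A.v, A.μ (A.B t.1 ∩ A.B t.2.1 ∩ A.B t.2.2) ≠ 0 ∧
    w = (FreeGroup.of (t.1, t.2.2))⁻¹ * FreeGroup.of (t.2.1, t.2.2) * FreeGroup.of (t.1, t.2.1)}

theorem Atlas.paths (A : Atlas) : ∃ path : Fin A.v → FreeGroup (Fin A.v × Fin A.v),
    ∀ e : Fin A.v × Fin A.v, (A.B e.1 ∩ A.B e.2).Nonempty →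
      (path e.2)⁻¹ * FreeGroup.of e * path e.1 ∈ Subgroup.normalClosure A.rel := by
  classical
  let N := Subgroup.normalClosure A.rel
  have hc1 : Countable (FreeGroup (Fin A.v × Fin A.v)) := inferInstance
  have hc : Countable (FreeGroup (Fin A.v × Fin A.v) ⧸ N) :=
    (QuotientGroup.mk_surjective (s := N)).countable
  obtain ⟨enc, henc⟩ := exists_injective_nat (FreeGroup (Fin A.v × Fin A.v) ⧸ N)
  let dec : ℕ → FreeGroup (Fin A.v × Fin A.v) ⧸ N := Function.invFun enc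
  have hdec : ∀ g, dec (enc g) = g := Function.leftInverse_invFun henc
  let c : ℕ → ℕ → FreeGroup (Fin A.v × Fin A.v) ⧸ N := fun a b =>
    if h : a < A.v ∧ b < A.v then QuotientGroup.mk (FreeGroup.of (⟨a, h.1⟩, ⟨b, h.2⟩)) else 1
  obtain ⟨s, hs⟩ := A.simply (fun a b n => enc (c a b * dec n)) (by
    intro a b d n h
    obtain ⟨q, hq⟩ := nonempty_of_measure_ne_zero h
    have ha := A.lt_v hq.1.1
    have hb := A.lt_v hq.1.2
    have hd := A.lt_v hq.2
    have h1 : c b d * c a b = c a d := by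
      simp only [c]
      rw [dif_pos ⟨hb, hd⟩, dif_pos ⟨ha, hb⟩, dif_pos ⟨ha, hd⟩, ← QuotientGroup.mk_mul, eq_comm,
        QuotientGroup.eq, ← mul_assoc]
      exact Subgroup.subset_normalClosure ⟨(⟨a, ha⟩, ⟨b, hb⟩, ⟨d, hd⟩), h, rfl⟩
    show enc (c b d * dec (enc (c a b * dec n))) = enc (c a d * dec n)
    rw [hdec, ← mul_assoc, h1])
  choose lift hlift using fun g : FreeGroup (Fin A.v × Fin A.v) ⧸ N => QuotientGroup.mk_surjective g
  refine ⟨fun a => lift (dec (s a)), fun e he => ?_⟩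
  have h1 : dec (enc (c e.1 e.2 * dec (s e.1))) = dec (s e.2) := congrArg dec (hs e.1 e.2 he)
  rw [hdec] at h1
  have h2 : c e.1 e.2 = QuotientGroup.mk (FreeGroup.of e) := by
    simp only [c]
    rw [dif_pos ⟨e.1.2, e.2.2⟩]
  rw [h2, ← hlift (dec (s e.1)), ← hlift (dec (s e.2)), ← QuotientGroup.mk_mul, eq_comm,
    QuotientGroup.eq, ← mul_assoc] at h1
  exact h1

open Classical in
/-- the atlas in the old form -/
noncomputable def Atlas.old (A : Atlas) (C : ℝ) (hC : A.D ≤ C) (hC0 : 0 < C) : V.Atlas where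
  Ω := ℝ
  μ := A.μ
  v := A.v
  B a := A.B a
  meas_B a := A.meas_B a
  adj := Finset.univ.filter fun p => (A.B p.1 ∩ A.B p.2).Nonempty
  disj a a' h := by
    by_contra hne
    exact h (Finset.mem_filter.2 ⟨Finset.mem_univ _, Set.nonempty_iff_ne_empty.2 hne⟩)
  tri := Finset.univ.filter fun t => A.μ (A.B t.1 ∩ A.B t.2.1 ∩ A.B t.2.2) ≠ 0
  path := A.paths.choose
  simply e he := by
    have h1 := A.paths.choose_spec e (Finset.mem_filter.1 he).2
    have h2 : A.rel = {w | ∃ t ∈ Finset.univ.filter fun t : Fin A.v × Fin A.v × Fin A.v =>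
        A.μ (A.B t.1 ∩ A.B t.2.1 ∩ A.B t.2.2) ≠ 0, w = (FreeGroup.of (t.1, t.2.2))⁻¹ *
          FreeGroup.of (t.2.1, t.2.2) * FreeGroup.of (t.1, t.2.1)} := by
      ext w
      simp [Atlas.rel]
    exact h2 ▸ h1
  C := C
  C_pos := hC0
  χ a q := ‖A.χ a 0 q‖
  meas_χ a := (A.meas_χ a 0).norm
  χ_nonneg _ _ := norm_nonneg _
  χ_sum q := by
    have h1 := A.χ_sum 0 q
    rw [if_pos rfl, Finset.sum_congr rfl fun a _ => A.χ_nonneg a q, Finset.sum_range] at h1
    exact_mod_cast h1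
  χ_supp a q hq := by
    rw [A.χ_supp a 0 q hq, norm_zero]
  dχ a l q := star (A.χ a (l + 1) q)
  meas_dχ a l := (continuous_star.measurable).comp (A.meas_χ a (l + 1))
  dχ_le a l q := by
    rw [norm_star]
    exact (A.χ_le _ _ _).trans hC
  dχ_sum l q := by
    have h1 := A.χ_sum (l + 1) q
    rw [if_neg (Nat.succ_ne_zero _), Finset.sum_range] at h1
    rw [← star_sum, h1, star_zero]
  dχ_supp a l q hq := by
    rw [A.χ_supp a _ q hq, star_zero]
  pg := A.pg
  ω j := A.ω j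
  meas_ω j := A.meas_ω j
  bdd_ω := ⟨A.D, fun j q => A.ω_le j q⟩
  norm_ω j := A.norm_ω j j.2
  b := A.D + 1
  b_pos := by
    have := A.D_nonneg
    linarith
  lam := (A.D + 1)⁻¹
  lam_pos := by
    have := A.D_nonneg
    positivity

/-- the mean over the choices of the centres -/
theorem Connection.mean {A : Atlas} {R k : ℕ} {e : ℝ} (c : Connection A R k e) :
    ∃ θ, ∑ a ∈ Finset.range A.v, ∑ b ∈ Finset.range A.v, ∫⁻ q in A.B a ∩ A.B b,
      ENNReal.ofReal (hs (c.Y θ a 0 q - c.P θ a b * c.Y θ b 0 q) + hs (c.Y θ a 1 q) +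
        hs (c.Y θ a 2 q)) ∂A.μ ≤ ENNReal.ofReal (A.v ^ 2 * A.D ^ 3 * e) := by
  have hD := A.D_nonneg
  let f : ℕ → ℕ → ℝ → ℝ≥0∞ := fun a b θ =>
    ∫⁻ q in A.B a ∩ A.B b, ∫⁻ x, c.en (A.cone a b (θ, q, x)) ∂A.μ ∂A.μ
  have g : ∀ a b, Measurable fun y => c.en (A.cone a b y) := fun a b =>
    c.meas_en.comp (A.meas_cone a b)
  have g' : ∀ a b, Measurable fun p : ℝ × ℝ => ∫⁻ x, c.en (A.cone a b (p.1, p.2, x)) ∂A.μ := by
    intro a b
    have h1 : Measurable fun p : (ℝ × ℝ) × ℝ => c.en (A.cone a b (p.1.1, p.1.2, p.2)) :=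
      (g a b).comp (MeasurableEquiv.prodAssoc.measurable)
    exact h1.lintegral_prod_right'
  have m : ∀ a b, Measurable (f a b) := fun a b => (g' a b).lintegral_prod_right'
  have i : ∀ a b, ∫⁻ θ, f a b θ ∂A.μ ≤ ENNReal.ofReal A.D * ENNReal.ofReal (A.D * e) := by
    intro a b
    have h1 : ∫⁻ θ, f a b θ ∂A.μ = ∫⁻ y, c.en (A.cone a b y)
        ∂(A.μ.prod ((A.μ.restrict (A.B a ∩ A.B b)).prod A.μ)) := by
      rw [lintegral_prod _ (g a b).aemeasurable]
      refine lintegral_congr fun θ => ?_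
      exact (lintegral_prod _ ((g a b).comp measurable_prodMk_left).aemeasurable).symm
    rw [h1, ← lintegral_map c.meas_en (A.meas_cone a b)]
    refine (lintegral_mono' (A.dens a b) le_rfl).trans ?_
    rw [lintegral_smul_measure, smul_eq_mul]
    exact mul_le_mul' le_rfl c.energy
  obtain ⟨θ, hθ⟩ := exists_le_lintegral (μ := A.μ)
    (f := fun θ => ∑ a ∈ Finset.range A.v, ∑ b ∈ Finset.range A.v, f a b θ)
    (Finset.measurable_fun_sum _ fun a _ => Finset.measurable_fun_sum _ fun b _ =>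
      m a b).aemeasurable
  refine ⟨θ, ?_⟩
  calc _ ≤ ∑ a ∈ Finset.range A.v, ∑ b ∈ Finset.range A.v, ENNReal.ofReal A.D * f a b θ := by
        refine Finset.sum_le_sum fun a _ => Finset.sum_le_sum fun b _ => ?_
        rw [← lintegral_const_mul' _ _ ENNReal.ofReal_ne_top]
        exact setLIntegral_mono' ((A.meas_B a).inter (A.meas_B b)) fun q hq => c.hol θ a b q hq
    _ = ENNReal.ofReal A.D * ∑ a ∈ Finset.range A.v, ∑ b ∈ Finset.range A.v, f a b θ := by
        simp only [Finset.mul_sum]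
    _ ≤ ENNReal.ofReal A.D * ∑ a ∈ Finset.range A.v, ∑ b ∈ Finset.range A.v,
          (ENNReal.ofReal A.D * ENNReal.ofReal (A.D * e)) := by
        refine mul_le_mul' le_rfl (hθ.trans ?_)
        rw [lintegral_finsetSum _ fun a _ => Finset.measurable_fun_sum _ fun b _ => m a b]
        refine Finset.sum_le_sum fun a _ => ?_
        rw [lintegral_finsetSum _ fun b _ => m a b]
        exact Finset.sum_le_sum fun b _ => i a b
    _ = ENNReal.ofReal (A.v ^ 2 * A.D ^ 3 * e) := by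
        simp only [Finset.sum_const, Finset.card_range, nsmul_eq_mul]
        rw [← ENNReal.ofReal_natCast, ← ENNReal.ofReal_mul hD, ← ENNReal.ofReal_mul (by positivity),
          ← ENNReal.ofReal_mul (by positivity), ← ENNReal.ofReal_mul hD]
        congr 1
        ring

section
variable {R : ℕ}

theorem hs_nonneg (M : Matrix (Fin R) (Fin R) ℂ) : 0 ≤ hs M :=
  Finset.sum_nonneg fun _ _ => Finset.sum_nonneg fun _ _ => by positivity

theorem hs_star (M : Matrix (Fin R) (Fin R) ℂ) : hs (star M) = hs M := by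
  unfold hs
  rw [Finset.sum_comm]
  refine Finset.sum_congr rfl fun i _ => Finset.sum_congr rfl fun j _ => ?_
  rw [Matrix.star_apply, norm_star]

theorem hs_neg (M : Matrix (Fin R) (Fin R) ℂ) : hs (-M) = hs M := by
  unfold hs
  simp

theorem hs_mul_right (M : Matrix (Fin R) (Fin R) ℂ) {U : Matrix (Fin R) (Fin R) ℂ}
    (hU : U ∈ Matrix.unitaryGroup (Fin R) ℂ) : hs (M * U) = hs M := V.hs_mul_unitary M ⟨U, hU⟩

theorem hs_mul_left (M : Matrix (Fin R) (Fin R) ℂ) {U : Matrix (Fin R) (Fin R) ℂ}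
    (hU : U ∈ Matrix.unitaryGroup (Fin R) ℂ) : hs (U * M) = hs M := V.hs_unitary_mul M ⟨U, hU⟩

theorem hs_add_le (M N : Matrix (Fin R) (Fin R) ℂ) : hs (M + N) ≤ 2 * hs M + 2 * hs N :=
  V.hs_add_le M N

/-- holonomy of the triangle of the centres -/
theorem hs_cocycle {Ya Yb Yc Pab Pac Pbc : Matrix (Fin R) (Fin R) ℂ}
    (hY : Yc ∈ Matrix.unitaryGroup (Fin R) ℂ) (hP : Pab ∈ Matrix.unitaryGroup (Fin R) ℂ) :
    hs (Pac - Pab * Pbc) ≤
      4 * (hs (Ya - Pac * Yc) + hs (Ya - Pab * Yb) + hs (Yb - Pbc * Yc)) := by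
  have h1 : (Pac - Pab * Pbc) * Yc =
      (-(Ya - Pac * Yc) + (Ya - Pab * Yb)) + Pab * (Yb - Pbc * Yc) := by
    noncomm_ring
  rw [← hs_mul_right _ hY, h1]
  have h2 := hs_add_le (-(Ya - Pac * Yc) + (Ya - Pab * Yb)) (Pab * (Yb - Pbc * Yc))
  have h3 := hs_add_le (-(Ya - Pac * Yc)) (Ya - Pab * Yb)
  rw [hs_neg] at h3
  rw [hs_mul_left _ hP] at h2
  have h4 := hs_nonneg (Yb - Pbc * Yc)
  linarith

theorem measurable_hs {F : ℝ → Matrix (Fin R) (Fin R) ℂ}
    (hF : ∀ r s, Measurable fun q => F q r s) : Measurable fun q => hs (F q) := by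
  unfold hs
  exact Finset.measurable_fun_sum _ fun r _ => Finset.measurable_fun_sum _ fun s _ =>
    (hF r s).norm.pow_const 2

end

/-- the sum of the squares of the holonomy and of the derivatives -/
noncomputable def Connection.h {A : Atlas} {R k : ℕ} {e : ℝ} (c : Connection A R k e) (θ : ℝ)
    (a b : ℕ) (q : ℝ) : ℝ :=
  hs (c.Y θ a 0 q - c.P θ a b * c.Y θ b 0 q) + hs (c.Y θ a 1 q) + hs (c.Y θ a 2 q)

theorem Connection.h_nonneg {A : Atlas} {R k : ℕ} {e : ℝ} (c : Connection A R k e) (θ : ℝ)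
    (a b : ℕ) (q : ℝ) : 0 ≤ c.h θ a b q :=
  add_nonneg (add_nonneg (hs_nonneg _) (hs_nonneg _)) (hs_nonneg _)

theorem Connection.measurable_h {A : Atlas} {R k : ℕ} {e : ℝ} (c : Connection A R k e) (θ : ℝ)
    (a b : ℕ) : Measurable (c.h θ a b) := by
  refine ((measurable_hs fun r s => ?_).add (measurable_hs fun r s => c.meas_Y _ _ _ _ _)).add
    (measurable_hs fun r s => c.meas_Y _ _ _ _ _)
  simp only [Matrix.sub_apply, Matrix.mul_apply]
  exact (c.meas_Y _ _ _ _ _).sub (Finset.measurable_fun_sum _ fun t _ =>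
    (c.meas_Y _ _ _ _ _).const_mul _)

/-- the holonomy of a triangle of centres is bounded by the mean over the triple intersection -/
theorem Connection.tri_le {A : Atlas} {R k : ℕ} {e : ℝ} (c : Connection A R k e) (θ : ℝ) (K : ℝ)
    (hK : ∀ a b, ∫⁻ q in A.B a ∩ A.B b, ENNReal.ofReal (c.h θ a b q) ∂A.μ ≤ ENNReal.ofReal K)
    (hK0 : 0 ≤ K) (a b d : ℕ) (hT : A.μ (A.B a ∩ A.B b ∩ A.B d) ≠ 0) :
    hs (c.P θ a d - c.P θ a b * c.P θ b d) ≤
      12 * K * (A.μ (A.B a ∩ A.B b ∩ A.B d)).toReal⁻¹ := by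
  set T := A.B a ∩ A.B b ∩ A.B d with hTdef
  have hTm : MeasurableSet T := ((A.meas_B a).inter (A.meas_B b)).inter (A.meas_B d)
  have hTt : A.μ T ≠ ⊤ := measure_ne_top _ _
  have h1 : ∀ a' b', T ⊆ A.B a' ∩ A.B b' →
      ∫⁻ q in T, ENNReal.ofReal (c.h θ a' b' q) ∂A.μ ≤ ENNReal.ofReal K := fun a' b' hs =>
    (lintegral_mono_set hs).trans (hK a' b')
  have h2 : ENNReal.ofReal (hs (c.P θ a d - c.P θ a b * c.P θ b d)) * A.μ T ≤
      ENNReal.ofReal (12 * K) := by
    calc ENNReal.ofReal (hs (c.P θ a d - c.P θ a b * c.P θ b d)) * A.μ T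
        = ∫⁻ _ in T, ENNReal.ofReal (hs (c.P θ a d - c.P θ a b * c.P θ b d)) ∂A.μ := by
          rw [setLIntegral_const]
      _ ≤ ∫⁻ q in T, 4 * ((ENNReal.ofReal (c.h θ a d q) + ENNReal.ofReal (c.h θ a b q)) +
            ENNReal.ofReal (c.h θ b d q)) ∂A.μ := by
          refine lintegral_mono fun q => ?_
          rw [← ENNReal.ofReal_add (c.h_nonneg _ _ _ _) (c.h_nonneg _ _ _ _),
            ← ENNReal.ofReal_add (add_nonneg (c.h_nonneg _ _ _ _) (c.h_nonneg _ _ _ _))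
              (c.h_nonneg _ _ _ _), show (4 : ℝ≥0∞) = ENNReal.ofReal 4 by simp,
            ← ENNReal.ofReal_mul (by norm_num)]
          refine ENNReal.ofReal_le_ofReal ?_
          refine (hs_cocycle (Ya := c.Y θ a 0 q) (Yb := c.Y θ b 0 q) (c.unit_Y θ d q)
            (c.unit_P θ a b)).trans ?_
          unfold Connection.h
          have i1 := hs_nonneg (c.Y θ a 1 q)
          have i2 := hs_nonneg (c.Y θ a 2 q)
          have i3 := hs_nonneg (c.Y θ b 1 q)
          have i4 := hs_nonneg (c.Y θ b 2 q)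
          linarith
      _ = 4 * ((∫⁻ q in T, ENNReal.ofReal (c.h θ a d q) ∂A.μ +
            ∫⁻ q in T, ENNReal.ofReal (c.h θ a b q) ∂A.μ) +
            ∫⁻ q in T, ENNReal.ofReal (c.h θ b d q) ∂A.μ) := by
          have m : ∀ a b, Measurable fun q => ENNReal.ofReal (c.h θ a b q) := fun a b =>
            (c.measurable_h θ a b).ennreal_ofReal
          rw [lintegral_const_mul' _ _ (by norm_num), lintegral_add_right _ (m b d),
            lintegral_add_right _ (m a b)]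
      _ ≤ 4 * ((ENNReal.ofReal K + ENNReal.ofReal K) + ENNReal.ofReal K) := by
          refine mul_le_mul' le_rfl (add_le_add (add_le_add ?_ ?_) ?_)
          · exact h1 a d fun q hq => ⟨hq.1.1, hq.2⟩
          · exact h1 a b fun q hq => hq.1
          · exact h1 b d fun q hq => ⟨hq.1.2, hq.2⟩
      _ = ENNReal.ofReal (12 * K) := by
          rw [← ENNReal.ofReal_add hK0 hK0, ← ENNReal.ofReal_add (by positivity) hK0,
            show (4 : ℝ≥0∞) = ENNReal.ofReal 4 by simp, ← ENNReal.ofReal_mul (by norm_num)]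
          congr 1
          ring
  have h3 : 0 < (A.μ T).toReal := ENNReal.toReal_pos hT hTt
  rw [← ENNReal.ofReal_toReal hTt, ← ENNReal.ofReal_mul (hs_nonneg _)] at h2
  have h4 := (ENNReal.ofReal_le_ofReal_iff (by positivity)).1 h2
  rw [← div_eq_mul_inv, le_div_iff₀ h3]
  exact h4

theorem map_aux (A : Atlas) (S : Set ℝ) {D : ℝ} (hD : 1 ≤ D) :
    (((Measure.dirac () : Measure Unit).prod (A.μ.restrict S)).prod A.μ).map
      (fun y : (Unit × ℝ) × ℝ => y.1.2) ≤ ENNReal.ofReal D • A.μ := by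
  have h1 : (fun y : (Unit × ℝ) × ℝ => y.1.2) = Prod.snd ∘ Prod.fst := rfl
  rw [h1, ← Measure.map_map measurable_snd measurable_fst, Measure.map_fst_prod, measure_univ,
    one_smul, Measure.map_snd_prod, measure_univ, one_smul]
  refine Measure.restrict_le_self.trans ?_
  refine Measure.le_iff.2 fun s _ => ?_
  rw [Measure.smul_apply, smul_eq_mul]
  calc A.μ s = 1 * A.μ s := (one_mul _).symm
    _ ≤ _ := mul_le_mul' (by rw [← ENNReal.ofReal_one]; exact ENNReal.ofReal_le_ofReal hD) le_rfl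

theorem map_aux' (A : Atlas) {D : ℝ} (hD : 1 ≤ D) :
    ((Measure.dirac () : Measure Unit).prod A.μ).map (fun y : Unit × ℝ => y.2) ≤
      ENNReal.ofReal D • A.μ := by
  have h1 : (fun y : Unit × ℝ => y.2) = Prod.snd := rfl
  rw [h1, Measure.map_snd_prod, measure_univ, one_smul]
  refine Measure.le_iff.2 fun s _ => ?_
  rw [Measure.smul_apply, smul_eq_mul]
  calc A.μ s = 1 * A.μ s := (one_mul _).symm
    _ ≤ _ := mul_le_mul' (by rw [← ENNReal.ofReal_one]; exact ENNReal.ofReal_le_ofReal hD) le_rfl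

/-- trivial centres -/
noncomputable def Atlas.centres (A : Atlas) (C : ℝ) (hC : A.D ≤ C) (hC0 : 0 < C) (D : ℝ)
    (hD : 1 ≤ D) (hL : D * (((A.old C hC hC0).tri.card + (A.old C hC hC0).adj.card + A.v) *
      (D * D)) ≤ C) : V.Centres (A.old C hC hC0) where
  Θ := Unit
  ν := Measure.dirac ()
  X := ℝ
  σ := A.μ
  tri _ y := y.2
  meas_tri _ := measurable_snd
  cone _ y := y.1.2
  meas_cone _ := measurable_snd.comp measurable_fst
  radius _ y := y.1.2
  meas_radius _ := measurable_snd.comp measurable_fst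
  D := D
  D_nonneg := zero_le_one.trans hD
  dens_tri _ _ := map_aux' A hD
  dens_cone _ _ := map_aux A _ hD
  dens_radius _ := map_aux A _ hD
  large := hL

section
variable {A : Atlas} {R k : ℕ} {e : ℝ} (c : Connection A R k e)

theorem Connection.bdd : ∀ i q r, ‖c.u i q r‖ ≤ A.D + 1 := by
  intro i q r
  have h1 := c.bergman q (Pi.single r 1)
  have h2 : ∑ s, ‖(Pi.single r (1 : ℂ) : Fin R → ℂ) s‖ ^ 2 = 1 := by
    rw [Finset.sum_eq_single r]
    · simp
    · intro s _ hs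
      simp [hs]
    · simp
  have h3 : ‖c.u i q r‖ ^ 2 ≤ ∑ i, ‖(Pi.single r (1 : ℂ) : Fin R → ℂ) ⬝ᵥ c.u i q‖ ^ 2 := by
    refine le_trans (le_of_eq ?_) (Finset.single_le_sum
      (f := fun i => ‖(Pi.single r (1 : ℂ) : Fin R → ℂ) ⬝ᵥ c.u i q‖ ^ 2)
      (fun _ _ => by positivity) (Finset.mem_univ i))
    rw [single_dotProduct, one_mul]
  rw [h2, mul_one] at h1
  have h4 := A.D_nonneg
  nlinarith [norm_nonneg (c.u i q r)]

theorem V_pair (w u : Fin R → ℂ) : V.pair w u = ∑ r, star (w r) * u r := rfl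

theorem dist_Q {U V' W : Matrix (Fin R) (Fin R) ℂ} (hU : U ∈ Matrix.unitaryGroup (Fin R) ℂ)
    (hV : V' ∈ Matrix.unitaryGroup (Fin R) ℂ) (hW : W ∈ Matrix.unitaryGroup (Fin R) ℂ) :
    V.dist2 (⟨star U, Unitary.star_mem hU⟩ : Matrix.unitaryGroup (Fin R) ℂ)
      ((⟨star V', Unitary.star_mem hV⟩ : Matrix.unitaryGroup (Fin R) ℂ) *
        ⟨star W, Unitary.star_mem hW⟩) = hs (U - W * V') := by
  show hs (star U - star V' * star W) = _
  rw [← star_mul, ← star_sub, hs_star]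

theorem dist_tri {Pab Pac Pbc : Matrix (Fin R) (Fin R) ℂ}
    (hab : Pab ∈ Matrix.unitaryGroup (Fin R) ℂ) (hac : Pac ∈ Matrix.unitaryGroup (Fin R) ℂ)
    (hbc : Pbc ∈ Matrix.unitaryGroup (Fin R) ℂ) :
    V.dist2 ((⟨star Pac, Unitary.star_mem hac⟩ : Matrix.unitaryGroup (Fin R) ℂ)⁻¹ *
      ⟨star Pbc, Unitary.star_mem hbc⟩ * ⟨star Pab, Unitary.star_mem hab⟩) 1 =
      hs (Pac - Pab * Pbc) := by
  show hs (star (star Pac) * star Pbc * star Pab - 1) = _
  have h1 : Pab * Pbc ∈ Matrix.unitaryGroup (Fin R) ℂ := mul_mem hab hbc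
  have h2 : star (Pab * Pbc) ∈ Matrix.unitaryGroup (Fin R) ℂ := Unitary.star_mem h1
  rw [← hs_mul_right (Pac - Pab * Pbc) h2, star_star, sub_mul, Matrix.mem_unitaryGroup_iff.1 h1,
    star_mul, mul_assoc]

theorem pair_add (w w' u : Fin R → ℂ) :
    V.pair (fun r => w r + w' r) u = V.pair w u + V.pair w' u := by
  simp only [V.pair, star_add, add_mul, Finset.sum_add_distrib]

theorem pair_sum {ι : Type} [Fintype ι] (x : ι → ℂ) (M N : ι → Matrix (Fin R) (Fin R) ℂ)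
    (s : Fin R) (u : Fin R → ℂ) :
    V.pair (fun r => (∑ a, x a • (star (M a) * N a)) r s) u =
      ∑ a, star (x a) * ((fun t => star (N a t s)) ⬝ᵥ (M a *ᵥ u)) := by
  simp only [V.pair, Matrix.sum_apply, Matrix.smul_apply, Matrix.mul_apply, Matrix.star_apply,
    smul_eq_mul, star_sum, star_mul', star_star, dotProduct, Matrix.mulVec, Finset.mul_sum,
    Finset.sum_mul]
  rw [Finset.sum_comm]
  refine Finset.sum_congr rfl fun a _ => ?_
  rw [Finset.sum_comm]
  refine Finset.sum_congr rfl fun t _ => Finset.sum_congr rfl fun r _ => ?_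
  ring

variable (θ : ℝ)

/-- parallel transport to the points -/
noncomputable def Connection.Q (a : Fin A.v) (q : ℝ) : Matrix.unitaryGroup (Fin R) ℂ :=
  ⟨star (c.Y θ a 0 q), Unitary.star_mem (c.unit_Y θ a q)⟩

open Classical in
/-- its derivative -/
noncomputable def Connection.dQ (a : Fin A.v) (l : Fin 2) (q : ℝ) : Matrix (Fin R) (Fin R) ℂ :=
  if q ∈ A.B a then star (c.Y θ a (l + 1) q) else 0

theorem Connection.dQ_of_mem {a : Fin A.v} {l : Fin 2} {q : ℝ} (hq : q ∈ A.B a) :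
    c.dQ θ a l q = star (c.Y θ a (l + 1) q) := if_pos hq

open Classical in
theorem Connection.meas_dQ (a : Fin A.v) (l : Fin 2) (r s : Fin R) :
    Measurable fun q => c.dQ θ a l q r s := by
  have h1 : (fun q => c.dQ θ a l q r s) = fun q =>
      if q ∈ A.B a then star (c.Y θ a (l + 1) q s r) else 0 := by
    funext q
    unfold Connection.dQ
    split_ifs <;> rfl
  rw [h1]
  exact Measurable.ite (A.meas_B a) ((continuous_star.measurable).comp (c.meas_Y θ a _ s r))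
    measurable_const

theorem Connection.bdd_dQ : ∃ M, ∀ (a : Fin A.v) (l : Fin 2) q r s, ‖c.dQ θ a l q r s‖ ≤ M := by
  have hD := A.D_nonneg
  obtain ⟨M', hM'⟩ := c.bdd_en
  refine ⟨A.D * |M'| + 1, fun a l q r s => ?_⟩
  have hX : 0 ≤ A.D * |M'| := by positivity
  unfold Connection.dQ
  split_ifs with hq
  · have h1 := c.hol θ a a q ⟨hq, hq⟩
    have h2 : ENNReal.ofReal (c.h θ a a q) ≤ ENNReal.ofReal (A.D * |M'|) := by
      refine h1.trans ?_
      rw [ENNReal.ofReal_mul hD]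
      refine mul_le_mul' le_rfl ?_
      calc ∫⁻ x, c.en (A.cone a a (θ, q, x)) ∂A.μ ≤ ∫⁻ _, ENNReal.ofReal |M'| ∂A.μ :=
            lintegral_mono fun x => (hM' _).trans (ENNReal.ofReal_le_ofReal (le_abs_self _))
        _ = ENNReal.ofReal |M'| := by rw [lintegral_const, measure_univ, mul_one]
    have h3 := (ENNReal.ofReal_le_ofReal_iff hX).1 h2
    have h4 : ‖c.Y θ a (l + 1) q s r‖ ^ 2 ≤ hs (c.Y θ a (l + 1) q) :=
      le_trans (Finset.single_le_sum (f := fun r => ‖c.Y θ a (l + 1) q s r‖ ^ 2)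
        (fun _ _ => by positivity) (Finset.mem_univ r))
        (Finset.single_le_sum (f := fun s => ∑ r, ‖c.Y θ a (l + 1) q s r‖ ^ 2)
          (fun _ _ => by positivity) (Finset.mem_univ s))
    have h5 : hs (c.Y θ a (l + 1) q) ≤ c.h θ a a q := by
      have i0 := hs_nonneg (c.Y θ a 0 q - c.P θ a a * c.Y θ a 0 q)
      have i1 := hs_nonneg (c.Y θ a 1 q)
      have i2 := hs_nonneg (c.Y θ a 2 q)
      unfold Connection.h
      fin_cases l
      · show hs (c.Y θ a 1 q) ≤ _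
        linarith
      · show hs (c.Y θ a 2 q) ≤ _
        linarith
    show ‖star (c.Y θ a (l + 1) q s r)‖ ≤ _
    rw [norm_star]
    nlinarith [norm_nonneg (c.Y θ a (l + 1) q s r)]
  · show ‖(0 : ℂ)‖ ≤ _
    rw [norm_zero]
    linarith

/-- a vector at each centre -/
noncomputable def vec (A : Atlas) (U : Fin A.v → Matrix.unitaryGroup (Fin R) ℂ) (s : Fin R)
    (a : ℕ) (t : Fin R) : ℂ :=
  if h : a < A.v then star ((U ⟨a, h⟩ : Matrix (Fin R) (Fin R) ℂ) t s) else 0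

theorem vec_eq (U : Fin A.v → Matrix.unitaryGroup (Fin R) ℂ) (s : Fin R) (a : Fin A.v) :
    vec A U s a = fun t => star ((U a : Matrix (Fin R) (Fin R) ℂ) t s) := by
  funext t
  unfold vec
  rw [dif_pos a.2]

theorem pair_T (C : ℝ) (hC : A.D ≤ C) (hC0 : 0 < C)
    (U : Fin A.v → Matrix.unitaryGroup (Fin R) ℂ) (q : ℝ) (s : Fin R) (u : Fin R → ℂ) :
    V.pair (fun r => (A.old C hC hC0).T (c.Q θ) U q r s) u =
      ∑ a ∈ Finset.range A.v, A.χ a 0 q * (vec A U s a ⬝ᵥ (c.Y θ a 0 q *ᵥ u)) := by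
  have h1 := pair_sum (fun a : Fin A.v => ((‖A.χ a 0 q‖ : ℝ) : ℂ)) (fun a => c.Y θ a 0 q)
    (fun a => (U a : Matrix (Fin R) (Fin R) ℂ)) s u
  rw [Finset.sum_range]
  refine Eq.trans h1 (Finset.sum_congr rfl fun a _ => ?_)
  have h5 : star ((‖A.χ a 0 q‖ : ℝ) : ℂ) = A.χ a 0 q :=
    (Complex.conj_ofReal _).trans (A.χ_nonneg a q).symm
  rw [vec_eq, h5]

theorem pair_dT (C : ℝ) (hC : A.D ≤ C) (hC0 : 0 < C)
    (U : Fin A.v → Matrix.unitaryGroup (Fin R) ℂ) (l : Fin 2) (q : ℝ) (s : Fin R)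
    (u : Fin R → ℂ) :
    V.pair (fun r => (A.old C hC hC0).dT (c.Q θ) (c.dQ θ) U l q r s) u =
      ∑ a ∈ Finset.range A.v, (A.χ a (l + 1) q * (vec A U s a ⬝ᵥ (c.Y θ a 0 q *ᵥ u)) +
        A.χ a 0 q * (vec A U s a ⬝ᵥ (c.Y θ a (l + 1) q *ᵥ u))) := by
  have h1 := pair_sum (fun a : Fin A.v => star (A.χ a (l + 1) q)) (fun a => c.Y θ a 0 q)
    (fun a => (U a : Matrix (Fin R) (Fin R) ℂ)) s u
  have h2 := pair_sum (fun a : Fin A.v => ((‖A.χ a 0 q‖ : ℝ) : ℂ)) (fun a => c.Y θ a (l + 1) q)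
    (fun a => (U a : Matrix (Fin R) (Fin R) ℂ)) s u
  have h3 : (A.old C hC hC0).dT (c.Q θ) (c.dQ θ) U l q =
      ∑ a : Fin A.v, star (A.χ a (l + 1) q) • (star (c.Y θ a 0 q) *
        (U a : Matrix (Fin R) (Fin R) ℂ)) +
      ∑ a : Fin A.v, ((‖A.χ a 0 q‖ : ℝ) : ℂ) • (star (c.Y θ a (l + 1) q) *
        (U a : Matrix (Fin R) (Fin R) ℂ)) := by
    rw [← Finset.sum_add_distrib]
    refine Finset.sum_congr rfl fun a _ => ?_
    congr 1
    show ((‖A.χ a 0 q‖ : ℝ) : ℂ) • (c.dQ θ a l q * (U a : Matrix (Fin R) (Fin R) ℂ)) = _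
    unfold Connection.dQ
    split_ifs with h
    · rfl
    · rw [A.χ_supp a 0 q h, norm_zero, Complex.ofReal_zero, zero_smul, zero_smul]
  rw [h3]
  refine (pair_add _ _ _).trans ?_
  rw [h1, h2, Finset.sum_range, ← Finset.sum_add_distrib]
  refine Finset.sum_congr rfl fun a _ => ?_
  have h5 : star ((‖A.χ a 0 q‖ : ℝ) : ℂ) = A.χ a 0 q :=
    (Complex.conj_ofReal _).trans (A.χ_nonneg a q).symm
  rw [vec_eq, star_star, h5]

theorem Connection.gap_old (C : ℝ) (hC : A.D ≤ C) (hC0 : 0 < C)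
    (U : Fin A.v → Matrix.unitaryGroup (Fin R) ℂ) (i : Fin k) (s : Fin R) :
    ∫ q, ‖V.pair (fun r => (A.old C hC hC0).T (c.Q θ) U q r s) (c.u i q)‖ ^ 2 ∂A.μ ≤
      ∑ j : Fin A.pg, ‖∫ q, star (A.ω j q) *
        V.pair (fun r => (A.old C hC hC0).T (c.Q θ) U q r s) (c.u i q) ∂A.μ‖ ^ 2 +
      (∫ q, ∑ l, ‖V.pair (fun r => (A.old C hC hC0).dT (c.Q θ) (c.dQ θ) U l q r s)
        (c.u i q)‖ ^ 2 ∂A.μ) / (A.D + 1)⁻¹ := by
  have hD := A.D_nonneg
  have h1 := c.gap θ (vec A U s) i (fun a l q => vec A U s a ⬝ᵥ (c.Y θ a l q *ᵥ c.u i q))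
    (fun q => ∑ a ∈ Finset.range A.v, A.χ a 0 q * (vec A U s a ⬝ᵥ (c.Y θ a 0 q *ᵥ c.u i q)))
    (fun l q => ∑ a ∈ Finset.range A.v,
      (A.χ a l q * (vec A U s a ⬝ᵥ (c.Y θ a 0 q *ᵥ c.u i q)) +
        A.χ a 0 q * (vec A U s a ⬝ᵥ (c.Y θ a l q *ᵥ c.u i q))))
    (fun _ _ _ => rfl) (fun _ => rfl) (fun _ _ => rfl)
  simp only [pair_T, pair_dT]
  refine h1.trans ?_
  rw [Finset.sum_range (n := A.pg)]
  refine add_le_add le_rfl ?_
  rw [div_inv_eq_mul, mul_comm]
  simp only [Fin.sum_univ_two]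
  refine mul_le_mul le_rfl (by linarith) hD (integral_nonneg fun q => by positivity)

/-- the energies -/
noncomputable def Connection.en' (E : ℝ) (q : ℝ) : ℝ≥0∞ :=
  ENNReal.ofReal E + ∑ a ∈ Finset.range A.v, ∑ b ∈ Finset.range A.v,
    (A.B a ∩ A.B b).indicator (fun q => ENNReal.ofReal (c.h θ a b q)) q

theorem Connection.meas_en' (E : ℝ) : Measurable (c.en' θ E) :=
  measurable_const.add (Finset.measurable_fun_sum _ fun a _ => Finset.measurable_fun_sum _
    fun b _ => ((c.measurable_h θ a b).ennreal_ofReal).indicator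
      ((A.meas_B a).inter (A.meas_B b)))

theorem Connection.le_en' (E : ℝ) (a b : ℕ) (q : ℝ) (hq : q ∈ A.B a ∩ A.B b) :
    ENNReal.ofReal (c.h θ a b q) ≤ c.en' θ E q := by
  have ha := Finset.mem_range.2 (A.lt_v hq.1)
  have hb := Finset.mem_range.2 (A.lt_v hq.2)
  refine le_trans ?_ (le_add_left le_rfl)
  refine le_trans ?_ (Finset.single_le_sum (f := fun a => ∑ b ∈ Finset.range A.v,
    (A.B a ∩ A.B b).indicator (fun q => ENNReal.ofReal (c.h θ a b q)) q)
    (fun _ _ => zero_le) ha)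
  refine le_trans ?_ (Finset.single_le_sum (f := fun b =>
    (A.B a ∩ A.B b).indicator (fun q => ENNReal.ofReal (c.h θ a b q)) q)
    (fun _ _ => zero_le) hb)
  show _ ≤ (A.B a ∩ A.B b).indicator (fun q => ENNReal.ofReal (c.h θ a b q)) q
  rw [Set.indicator_of_mem hq]

theorem Connection.lintegral_en' (E : ℝ) : ∫⁻ q, c.en' θ E q ∂A.μ = ENNReal.ofReal E +
    ∑ a ∈ Finset.range A.v, ∑ b ∈ Finset.range A.v, ∫⁻ q in A.B a ∩ A.B b,
      ENNReal.ofReal (c.h θ a b q) ∂A.μ := by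
  have m : ∀ a b, Measurable fun q =>
      (A.B a ∩ A.B b).indicator (fun q => ENNReal.ofReal (c.h θ a b q)) q := fun a b =>
    ((c.measurable_h θ a b).ennreal_ofReal).indicator ((A.meas_B a).inter (A.meas_B b))
  unfold Connection.en'
  rw [lintegral_add_left measurable_const, lintegral_const, measure_univ, mul_one,
    lintegral_finsetSum _ fun a _ => Finset.measurable_fun_sum _ fun b _ => m a b]
  congr 1
  refine Finset.sum_congr rfl fun a _ => ?_
  rw [lintegral_finsetSum _ fun b _ => m a b]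
  refine Finset.sum_congr rfl fun b _ => ?_
  exact lintegral_indicator ((A.meas_B a).inter (A.meas_B b)) _

end

/-- **Conversion** -/
theorem Atlas.convert (A : Atlas) : ∃ (A' : V.Atlas) (Z : V.Centres A'), A'.pg = A.pg ∧
    ∀ (R k : ℕ) (e : ℝ), Nonempty (Connection A R k e) →
      Nonempty (V.Connection A' Z R k e) := by
  classical
  have hD := A.D_nonneg
  set K : ℝ := A.v ^ 2 * A.D ^ 3 with hK
  have hK0 : 0 ≤ K := by positivity
  let M : ℝ := ∑ t : Fin A.v × Fin A.v × Fin A.v,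
    (A.μ (A.B t.1 ∩ A.B t.2.1 ∩ A.B t.2.2)).toReal⁻¹
  have hM0 : 0 ≤ M := Finset.sum_nonneg fun t _ => by positivity
  let D : ℝ := 1 + 12 * K * M + K
  have hD1 : 1 ≤ D := by
    have : 0 ≤ 12 * K * M := by positivity
    show 1 ≤ 1 + 12 * K * M + K
    linarith
  let L : ℝ := D * (((Finset.univ.filter fun t : Fin A.v × Fin A.v × Fin A.v =>
      A.μ (A.B t.1 ∩ A.B t.2.1 ∩ A.B t.2.2) ≠ 0).card +
    (Finset.univ.filter fun p : Fin A.v × Fin A.v => (A.B p.1 ∩ A.B p.2).Nonempty).card + A.v) *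
      (D * D))
  have hL0 : 0 ≤ L := by
    have : 0 ≤ D := zero_le_one.trans hD1
    show 0 ≤ D * (_ * (D * D))
    positivity
  have hC : A.D ≤ 1 + A.D + L := by linarith
  have hC0 : 0 < 1 + A.D + L := by linarith
  refine ⟨A.old (1 + A.D + L) hC hC0, A.centres _ hC hC0 D hD1 ?_, rfl, fun R k e hc => ?_⟩
  · have h1 : L ≤ 1 + A.D + L := by linarith
    exact h1
  obtain ⟨c⟩ := hc
  have he := c.e_nonneg
  obtain ⟨θ, hθ⟩ := c.mean
  have hsum : ∑ a ∈ Finset.range A.v, ∑ b ∈ Finset.range A.v, ∫⁻ q in A.B a ∩ A.B b,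
      ENNReal.ofReal (c.h θ a b q) ∂A.μ ≤ ENNReal.ofReal (K * e) := hθ
  have hone : ∀ a b, ∫⁻ q in A.B a ∩ A.B b, ENNReal.ofReal (c.h θ a b q) ∂A.μ ≤
      ENNReal.ofReal (K * e) := by
    intro a b
    by_cases ha : a < A.v
    · by_cases hb : b < A.v
      · refine le_trans ?_ hsum
        refine le_trans ?_ (Finset.single_le_sum (f := fun a => ∑ b ∈ Finset.range A.v,
          ∫⁻ q in A.B a ∩ A.B b, ENNReal.ofReal (c.h θ a b q) ∂A.μ)
          (fun _ _ => zero_le) (Finset.mem_range.2 ha))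
        exact Finset.single_le_sum (f := fun b =>
          ∫⁻ q in A.B a ∩ A.B b, ENNReal.ofReal (c.h θ a b q) ∂A.μ)
          (fun _ _ => zero_le) (Finset.mem_range.2 hb)
      · rw [A.fin b (not_lt.1 hb), Set.inter_empty, Measure.restrict_empty,
          lintegral_zero_measure]
        exact zero_le
    · rw [A.fin a (not_lt.1 ha), Set.empty_inter, Measure.restrict_empty, lintegral_zero_measure]
      exact zero_le
  have hKe : 0 ≤ K * e := mul_nonneg hK0 he
  have hE0 : 0 ≤ 12 * (K * e) * M := by positivity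
  have hDD : (1 : ℝ≥0∞) ≤ ENNReal.ofReal D := by
    rw [← ENNReal.ofReal_one]
    exact ENNReal.ofReal_le_ofReal hD1
  refine ⟨{
    e_nonneg := he
    u := c.u
    meas_u := c.meas_u
    bdd_u := ⟨A.D + 1, c.bdd⟩
    orth := c.orth
    bergman := fun q w => ?_
    en := c.en' θ (12 * (K * e) * M)
    meas_en := c.meas_en' θ _
    energy := ?_
    P := fun _ p => ⟨star (c.P θ p.1 p.2), Unitary.star_mem (c.unit_P θ p.1 p.2)⟩
    Q := fun _ => c.Q θ
    meas_Q := fun _ a r s => (continuous_star.measurable).comp (c.meas_Y θ a 0 s r)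
    dQ := fun _ => c.dQ θ
    meas_dQ := fun _ a l r s => ?_
    bdd_dQ := fun _ => ?_
    hol := fun _ t ht => ?_
    holQ := fun _ p _ q hq => ?_
    deriv := fun _ a q hq => ?_
    gap := fun _ U i s => ?_ }⟩
  · have h1 := c.bergman q (fun r => star (w r))
    refine le_trans (le_of_eq ?_) (h1.trans ?_)
    · rfl
    · simp only [norm_star]
      refine mul_le_mul_of_nonneg_right ?_ (Finset.sum_nonneg fun _ _ => by positivity)
      show A.D ≤ A.D + 1
      linarith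
  · refine (c.lintegral_en' θ _).le.trans ?_
    refine (add_le_add le_rfl hsum).trans ?_
    rw [← ENNReal.ofReal_add hE0 hKe]
    refine ENNReal.ofReal_le_ofReal ?_
    show 12 * (K * e) * M + K * e ≤ (1 + 12 * K * M + K) * e
    nlinarith
  · exact c.meas_dQ θ a l r s
  · exact c.bdd_dQ θ
  · have hT : A.μ (A.B t.1 ∩ A.B t.2.1 ∩ A.B t.2.2) ≠ 0 := (Finset.mem_filter.1 ht).2
    have h1 := c.tri_le θ (K * e) hone hKe t.1 t.2.1 t.2.2 hT
    have h2 : (A.μ (A.B t.1 ∩ A.B t.2.1 ∩ A.B t.2.2)).toReal⁻¹ ≤ M :=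
      Finset.single_le_sum (f := fun t : Fin A.v × Fin A.v × Fin A.v =>
        (A.μ (A.B t.1 ∩ A.B t.2.1 ∩ A.B t.2.2)).toReal⁻¹) (fun _ _ => by positivity)
        (Finset.mem_univ t)
    refine (ENNReal.ofReal_le_ofReal (dist_tri (c.unit_P θ t.1 t.2.1) (c.unit_P θ t.1 t.2.2)
      (c.unit_P θ t.2.1 t.2.2)).le).trans ?_
    refine (ENNReal.ofReal_le_ofReal (h1.trans (mul_le_mul_of_nonneg_left h2
      (by positivity : (0 : ℝ) ≤ 12 * (K * e))))).trans ?_
    have h3 : ENNReal.ofReal (12 * (K * e) * M) ≤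
        ∫⁻ x, c.en' θ (12 * (K * e) * M) x ∂A.μ := by
      rw [c.lintegral_en']
      exact le_add_right le_rfl
    refine h3.trans ?_
    calc ∫⁻ x, c.en' θ (12 * (K * e) * M) x ∂A.μ
        = 1 * ∫⁻ x, c.en' θ (12 * (K * e) * M) x ∂A.μ := (one_mul _).symm
      _ ≤ _ := mul_le_mul' hDD le_rfl
  · have h1 : ENNReal.ofReal (V.dist2 (c.Q θ p.1 q)
        (c.Q θ p.2 q * ⟨star (c.P θ p.1 p.2), Unitary.star_mem (c.unit_P θ p.1 p.2)⟩)) ≤
        c.en' θ (12 * (K * e) * M) q := by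
      refine le_trans (ENNReal.ofReal_le_ofReal ?_) (c.le_en' θ _ p.1 p.2 q hq)
      refine (dist_Q (c.unit_Y θ p.1 q) (c.unit_Y θ p.2 q) (c.unit_P θ p.1 p.2)).le.trans ?_
      unfold Connection.h
      have i1 := hs_nonneg (c.Y θ p.1 1 q)
      have i2 := hs_nonneg (c.Y θ p.1 2 q)
      linarith
    refine h1.trans ?_
    show _ ≤ ENNReal.ofReal D * ∫⁻ _, c.en' θ (12 * (K * e) * M) q ∂A.μ
    rw [lintegral_const, measure_univ, mul_one]
    calc c.en' θ (12 * (K * e) * M) q = 1 * c.en' θ (12 * (K * e) * M) q := (one_mul _).symm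
      _ ≤ _ := mul_le_mul' hDD le_rfl
  · have h1 : ENNReal.ofReal (∑ l, V.hs (c.dQ θ a l q)) ≤ c.en' θ (12 * (K * e) * M) q := by
      refine le_trans (ENNReal.ofReal_le_ofReal ?_) (c.le_en' θ _ a a q ⟨hq, hq⟩)
      have h2 : ∀ l : Fin 2, V.hs (c.dQ θ a l q) = hs (c.Y θ a (l + 1) q) := by
        intro l
        rw [c.dQ_of_mem θ hq]
        exact hs_star _
      rw [Fin.sum_univ_two, h2, h2]
      unfold Connection.h
      have i0 := hs_nonneg (c.Y θ a 0 q - c.P θ a a * c.Y θ a 0 q)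
      show hs (c.Y θ a 1 q) + hs (c.Y θ a 2 q) ≤ _
      linarith
    refine h1.trans ?_
    show _ ≤ ENNReal.ofReal D * ∫⁻ _, c.en' θ (12 * (K * e) * M) q ∂A.μ
    rw [lintegral_const, measure_univ, mul_one]
    calc c.en' θ (12 * (K * e) * M) q = 1 * c.en' θ (12 * (K * e) * M) q := (one_mul _).symm
      _ ≤ _ := mul_le_mul' hDD le_rfl
  · exact c.gap_old θ _ hC hC0 U i s

end Pool.Agent.H76.S
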