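import Pool.Agent.H76.S.Defs
import Pool.Agent.H76.S.AtlasConv
import Pool.Agent.H76.V.Sparse

/-!
# Conversion of the surface data (MP_5ee2d0, Theorem V)
-/

namespace Pool.Agent.H76.S

namespace Surface

variable {G : Type} [AddCommGroup G] (S : Surface G)

/-- the intersection form as a bilinear map -/
noncomputable def form : G →ₗ[ℤ] G →ₗ[ℤ] ℤ :=
  (AddMonoidHom.mk' (fun x => (AddMonoidHom.mk' (fun y => S.I x y) fun y z => by
      rw [S.symm, S.add, S.symm y, S.symm z]).toIntLinearMap) fun x y => by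
    ext z
    exact S.add x y z).toIntLinearMap

lemma form_apply (x y : G) : S.form x y = S.I x y := rfl

/-- the form is negative semidefinite on the complement of `N₀` and `h` -/
lemma hodge' (v : G) : S.form S.N₀ S.h ^ 2 * S.form v v ≤
    2 * S.form S.N₀ S.h * (S.form v S.N₀ * S.form v S.h) -
      S.form v S.N₀ ^ 2 * S.form S.h S.h := by
  have hsymm : ∀ x y, S.form x y = S.form y x := S.symm
  obtain ⟨t, ht⟩ : ∃ t, t = S.form S.N₀ S.h := ⟨_, rfl⟩
  obtain ⟨q, hq⟩ : ∃ q, q = S.form S.h S.h := ⟨_, rfl⟩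
  obtain ⟨x, hx⟩ : ∃ x, x = S.form v S.N₀ := ⟨_, rfl⟩
  obtain ⟨y, hy⟩ : ∃ y, y = S.form v S.h := ⟨_, rfl⟩
  obtain ⟨z, hz⟩ : ∃ z, z = S.form v v := ⟨_, rfl⟩
  have ht0 : 0 < t := by rw [ht]; exact S.pos
  have hsq : S.form S.N₀ S.N₀ = 0 := S.sq
  have h1 : S.form (t ^ 2 • v + (x * q - t * y) • S.N₀ + (-(t * x)) • S.h) S.h = 0 := by
    simp only [map_add, map_smul, LinearMap.add_apply, LinearMap.smul_apply, smul_eq_mul, ← ht,
      ← hq, ← hy]
    ring
  have h2 : S.form (t ^ 2 • v + (x * q - t * y) • S.N₀ + (-(t * x)) • S.h)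
      (t ^ 2 • v + (x * q - t * y) • S.N₀ + (-(t * x)) • S.h) ≤ 0 := S.hodge _ h1
  simp only [map_add, map_smul, LinearMap.add_apply, LinearMap.smul_apply, smul_eq_mul, hsq,
    hsymm S.N₀ v, hsymm S.h v, hsymm S.h S.N₀, ← ht, ← hq, ← hx, ← hy, ← hz] at h2
  rw [← ht, ← hq, ← hx, ← hy, ← hz]
  have h3 : t ^ 2 * (t ^ 2 * z - (2 * t * (x * y) - x ^ 2 * q)) ≤ 0 := by
    refine le_trans (le_of_eq ?_) h2
    ring
  have h4 : 0 < t ^ 2 := by positivity
  by_contra hcon
  push Not at hcon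
  have h5 : 0 < t ^ 2 * (t ^ 2 * z - (2 * t * (x * y) - x ^ 2 * q)) :=
    mul_pos h4 (by linarith)
  linarith

/-- the surface in the old form -/
noncomputable def toV (A' : V.Atlas) (Z : V.Centres A') (hpg : A'.pg = S.A.pg)
    (hconn : ∀ (R k : ℕ) (e : ℝ), Nonempty (Connection S.A R k e) →
      Nonempty (V.Connection A' Z R k e)) : V.Surface G S.Sf where
  I := S.form
  symm := S.symm
  N₀ := S.N₀
  h := S.h
  sq := S.sq
  pos := S.pos
  pos_h := S.pos_h
  hodge := S.hodge'
  prim := S.prim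
  rk := S.rk
  c1 := S.c1
  ch := S.ch
  Stable := S.Stable
  h0 := S.h0
  h1 := S.h1
  l0 := S.h0 S.O
  l1 := S.h1 S.O
  rk_pos := S.rk_pos
  line := S.line
  l0_zero := by rw [S.h0_O, if_pos rfl]
  l1_zero := S.h1_O
  l0_ne := fun k hk => by rw [S.h0_O, if_neg hk]
  Eff := S.Eff
  eff_nef := S.eff_nef
  eff_l0 := fun k hk => by
    rw [S.eff_mul k hk, S.h0_O, if_pos rfl]
    exact one_ne_zero
  eff_neg := S.eff_neg
  ext := S.ext
  bounded := S.bounded
  A := A'
  Z := Z
  hermite := fun F hF => by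
    obtain ⟨k, hk, hc⟩ := S.hermite F hF
    refine ⟨k, ?_, hconn _ _ _ hc⟩
    rw [hpg]
    exact hk

end Surface

lemma sum_iic {M : Type*} [AddCommMonoid M] {m : ℕ} (f : ℕ → M) (i : Fin m) :
    ∑ j ∈ Finset.range (i + 1), f j = ∑ j ∈ Finset.Iic i, f j := by
  symm
  refine Finset.sum_nbij (fun j => (j : ℕ)) ?_ ?_ ?_ ?_
  · intro j hj
    rw [Finset.mem_Iic] at hj
    rw [Finset.mem_range]
    exact Nat.lt_succ_of_le hj
  · intro j _ k _ h
    exact Fin.ext h
  · intro j hj
    rw [Finset.coe_range, Set.mem_Iio] at hj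
    exact ⟨⟨j, by omega⟩, by simpa using Fin.le_iff_val_le_val.2 (Nat.lt_succ_iff.1 hj), rfl⟩
  · intro j _
    rfl

/-- the extension in the old form -/
noncomputable def Extension.toV {K W : Type} [Field K] [AddCommGroup W] [Module K W] {G : Type}
    [AddCommGroup G] {S : Surface G} {d : ℤ} {g : ℕ} {c : G} {ch : ℤ} {B : Finset ℤ}
    (X : Extension K W S d g c ch B) (hg : 0 < g) (S' : V.Surface G S.Sf)
    (hI : ∀ x y, S'.I x y = S.I x y) (hN : S'.N₀ = S.N₀) (hh : S'.h = S.h) (hrk : S'.rk = S.rk)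
    (hc1 : S'.c1 = S.c1) (hch : S'.ch = S.ch) (hst : S'.Stable = S.Stable) (h0 : S'.h0 = S.h0)
    (h1 : S'.h1 = S.h1) (hE : S'.Eff = S.Eff) : V.Extension S' d g c ch B where
  K := K
  E := W
  finE := Module.finite_of_finrank_pos (by rw [X.dim]; omega)
  finrank_E := X.dim
  v := X.v
  indep := X.indep
  cl := X.cl
  cl_top := by rw [hN]; exact X.cl_top
  cl_sum := fun B' hB' => by rw [hN]; exact X.cl_sum B' hB'
  super := fun W W' => by
    have h := X.super W W'
    rw [S.add, S.add] at h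
    rw [hI, hI, hI, hI, hN]
    exact h
  stable := fun W h1 h2 => by rw [hI, hN]; exact X.stable W h1 h2
  proj := fun R h1 h2 b hb h3 => by rw [hE, hN]; exact X.proj R h1 h2 b hb h3
  split := fun W h1 h2 b hb => by
    rw [hI, hN] at h1
    exact X.split W h1 h2 b hb
  m := X.m
  F := fun i => X.F i
  fil := fun i => X.fil (i + 1)
  fil_stable := fun i => by rw [hst]; exact X.fil_stable i i.2
  fil_rk := fun i => by
    rw [X.fil_rk _ i.2, hrk]
    exact sum_iic _ i
  fil_cl := fun i => by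
    rw [X.fil_cl _ i.2, hc1]
    exact sum_iic _ i
  sum_rk := by
    have h := X.fil_rk X.m le_rfl
    rw [X.fil_top, finrank_top, X.dim, Finset.sum_range] at h
    rw [hrk]
    exact h.symm
  sum_cl := by
    have h := X.fil_cl X.m le_rfl
    rw [X.fil_top, X.cl_top, Finset.sum_range] at h
    rw [hc1, hN]
    exact h.symm
  sum_ch := by
    have h := X.sum_ch
    rw [Finset.sum_range] at h
    rw [hch]
    exact h
  slope := fun i j hij => by
    rw [hI, hI, hh, hc1, hrk]
    exact X.slope i j hij j.2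
  hE := X.hE
  hE_sum := fun k => by
    have h := X.hE_sum k
    rw [Finset.sum_range] at h
    rw [h0, h1]
    exact h
  hE_sec := fun k hk => by
    rw [hE, hN]
    exact X.hE_sec k hk

/-- the set of bad integers is sparse, if the atlas has an old form -/
theorem Test.sparse_of {G : Type} [AddCommGroup G] {S : Surface G} {Bad : ℤ → Prop}
    (T : Test S Bad) (A' : V.Atlas) (Z : V.Centres A') (hpg : A'.pg = S.A.pg)
    (hconn : ∀ (R k : ℕ) (e : ℝ), Nonempty (Connection S.A R k e) →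
      Nonempty (V.Connection A' Z R k e)) : V.Sparse Bad :=
  V.Test.sparse_bad (S := S.toV A' Z hpg hconn)
    { d := T.d
      d_pos := T.d_pos
      g := T.g
      g_pos := T.g_pos
      c := T.c
      c_N := T.c_N
      ch := T.ch
      exten := fun B hB hbad => by
        obtain ⟨K, W, _, _, _, ⟨X⟩⟩ := T.exten B hB hbad
        exact ⟨X.toV T.g_pos _ (fun _ _ => rfl) rfl rfl rfl rfl rfl rfl rfl rfl rfl⟩ }

/-- the set of bad integers is sparse -/
theorem Test.sparse {G : Type} [AddCommGroup G] {S : Surface G} {Bad : ℤ → Prop}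
    (T : Test S Bad) : V.Sparse Bad := by
  obtain ⟨A', Z, h1, h2⟩ := S.A.convert
  exact T.sparse_of A' Z h1 h2

end Pool.Agent.H76.S
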