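import Pool.Agent.H76.S.Sheaves
import Pool.Agent.H76.S.Conv

/-!
# From the threefold to surfaces (MP_5ee2d0, Theorem V, step 3)
-/

open CategoryTheory CategoryTheory.Limits CategoryTheory.Abelian

namespace Pool.Agent.H76.S

open Pool.Agent.H76.V

lemma Sparse.mono {A B : ℤ → Prop} (h : Sparse B) (b1 : ℤ) (hAB : ∀ b, b1 ≤ b → A b → B b) :
    Sparse A := by
  obtain ⟨n₀, hn⟩ := h
  refine ⟨n₀, fun w => ?_⟩
  obtain ⟨β, hβ⟩ := hn w
  refine ⟨max β b1, fun b₀ hb₀ B' hB' => hβ b₀ ((le_max_left _ _).trans hb₀) B' ?_⟩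
  intro b hb
  obtain ⟨h1, h2, h3⟩ := hB' b hb
  exact ⟨hAB b (((le_max_right _ _).trans hb₀).trans h2) h1, h2, h3⟩

lemma Sparse.union {A B : ℤ → Prop} (hA : Sparse A) (hB : Sparse B) :
    Sparse fun b => A b ∨ B b := by
  classical
  obtain ⟨n₀, hn⟩ := hA
  obtain ⟨m₀, hm⟩ := hB
  refine ⟨n₀ + m₀, fun w => ?_⟩
  obtain ⟨β, hβ⟩ := hn w
  obtain ⟨γ, hγ⟩ := hm w
  refine ⟨max β γ, fun b₀ hb₀ B' hB' => ?_⟩
  have h1 := hβ b₀ ((le_max_left _ _).trans hb₀) (B'.filter A) (by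
    intro b hb
    obtain ⟨h1, h2⟩ := Finset.mem_filter.1 hb
    exact ⟨h2, (hB' b h1).2⟩)
  have h2 := hγ b₀ ((le_max_right _ _).trans hb₀) (B'.filter fun b => ¬ A b) (by
    intro b hb
    obtain ⟨h1, h2⟩ := Finset.mem_filter.1 hb
    exact ⟨(hB' b h1).1.resolve_left h2, (hB' b h1).2⟩)
  have h3 := Finset.card_filter_add_card_filter_not (s := B') A
  omega

variable {C : Type} [Category.{0} C] [Abelian C] [HasExt.{0} C]

/-- the image of a class in `Ext^1(F, A_k')` -/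
noncomputable def up (A : ℕ ⥤ C) {F : C} {k k' : ℕ} (h : k ≤ k') (e : Ext F (A.obj k) 1) :
    Ext F (A.obj k') 1 := e.comp (Ext.mk₀ (A.map (homOfLE h))) (add_zero 1)

lemma up_up (A : ℕ ⥤ C) {F : C} {k k' k'' : ℕ} (h : k ≤ k') (h' : k' ≤ k'')
    (e : Ext F (A.obj k) 1) : up A h' (up A h e) = up A (h.trans h') e := by
  unfold up
  rw [Ext.comp_assoc_of_third_deg_zero, Ext.mk₀_comp_mk₀, ← A.map_comp, homOfLE_comp]

lemma up_refl (A : ℕ ⥤ C) {F : C} {k : ℕ} (e : Ext F (A.obj k) 1) : up A le_rfl e = e := by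
  unfold up
  have : A.map (homOfLE (le_refl k)) = 𝟙 _ := A.map_id k
  rw [this, Ext.comp_mk₀_id]

lemma up_zero (A : ℕ ⥤ C) {F : C} {k k' : ℕ} (h : k ≤ k') : up A h (0 : Ext F (A.obj k) 1) = 0 := by
  unfold up
  rw [Ext.zero_comp]

/-- the restriction to the surface -/
noncomputable def resE {A B : ℕ ⥤ C} (t : A ⟶ B) {F : C} {k : ℕ} (e : Ext F (A.obj k) 1) :
    Ext F (B.obj k) 1 := e.comp (Ext.mk₀ (t.app k)) (add_zero 1)

lemma resE_up {A B : ℕ ⥤ C} (t : A ⟶ B) {F : C} {k k' : ℕ} (h : k ≤ k')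
    (e : Ext F (A.obj k) 1) : resE t (up A h e) = up B h (resE t e) := by
  unfold resE up
  rw [Ext.comp_assoc_of_third_deg_zero, Ext.comp_assoc_of_third_deg_zero, Ext.mk₀_comp_mk₀,
    Ext.mk₀_comp_mk₀, t.naturality]

/-- injectivity on `Ext^1` if there are no maps to the cokernel -/
lemma inj_of_mono {F A B : C} (i : A ⟶ B) [Mono i] (h : ∀ φ : F ⟶ cokernel i, φ = 0)
    (e : Ext F A 1) (he : e.comp (Ext.mk₀ i) (add_zero 1) = 0) : e = 0 := by
  have hS : (ShortComplex.mk i (cokernel.π i) (cokernel.condition i)).ShortExact := by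
    refine ShortComplex.ShortExact.mk' ?_ inferInstance inferInstance
    exact ShortComplex.exact_cokernel i
  obtain ⟨y, hy⟩ := Ext.covariant_sequence_exact₁ F hS e he (n₀ := 0) (by norm_num)
  obtain ⟨φ, rfl⟩ := (Ext.mk₀_bijective F _).2 y
  have hφ : φ = 0 := h φ
  subst hφ
  rw [← hy, Ext.mk₀_zero, Ext.zero_comp]

/-- injectivity on `Ext^1` if there are no extensions by the kernel -/
lemma inj_of_epi {F A B : C} (p : A ⟶ B) [Epi p] (h : ∀ e : Ext F (kernel p) 1, e = 0)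
    (e : Ext F A 1) (he : e.comp (Ext.mk₀ p) (add_zero 1) = 0) : e = 0 := by
  have hS : (ShortComplex.mk (kernel.ι p) p (kernel.condition p)).ShortExact := by
    refine ShortComplex.ShortExact.mk' ?_ inferInstance inferInstance
    exact ShortComplex.exact_kernel p
  obtain ⟨y, hy⟩ := Ext.covariant_sequence_exact₂ F hS e he
  have hy0 : y = 0 := h y
  rw [← hy, hy0, Ext.zero_comp]

namespace Sheaves

variable (X : Sheaves C)

/-- for few `b` there is a class in `Ext^1(F, O(Z_k - b x))` which is not killed in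
`Ext^1(F, O(Z_k' - b x))` -/
def Few (F : C) (k k' : ℕ) (h : k ≤ k') : Prop :=
  Sparse fun b => ∃ e : Ext F ((X.L b).obj k) 1, up (X.L b) h e ≠ 0

lemma stable_case (F : C) (hF : X.Semi F) (hst : X.Stable F) (k : ℕ) :
    ∃ (k' : ℕ) (h : k ≤ k'), X.Few F k k' h := by
  obtain ⟨k₀, hk₀⟩ := X.degree F hF
  obtain ⟨k', hk'⟩ : ∃ k', k' = max k k₀ := ⟨_, rfl⟩
  have h1 : k ≤ k' := by rw [hk']; exact le_max_left _ _
  have h2 : k₀ ≤ k' := by rw [hk']; exact le_max_right _ _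
  obtain ⟨m₀, hm₀⟩ := X.fujita F hF k'
  obtain ⟨m₁, hm₁⟩ := X.langer F hF hst
  obtain ⟨m, hm⟩ : ∃ m, m = max m₀ (max m₁ 1) := ⟨_, rfl⟩
  have hm0 : m₀ ≤ m := by rw [hm]; exact le_max_left _ _
  have hm1 : m₁ ≤ m := by rw [hm]; exact (le_max_left _ _).trans (le_max_right _ _)
  have hmp : 0 < m := by
    rw [hm]; exact lt_of_lt_of_le one_pos ((le_max_right _ _).trans (le_max_right _ _))
  refine ⟨k', h1, ?_⟩
  -- peeling on the surface
  have hpeel : ∀ (b : ℤ) (n : ℕ) (f : Ext F ((X.LS m b).obj k') 1),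
      up (X.LS m b) (Nat.le_add_right k' n) f = 0 → f = 0 := by
    intro b n
    induction n with
    | zero =>
      intro f hf
      rwa [show up (X.LS m b) (Nat.le_add_right k' 0) f = f from up_refl _ f] at hf
    | succ n ih =>
      intro f hf
      apply ih
      obtain ⟨g1, g2⟩ := hk₀ m b (k' + n) hmp (by omega)
      apply inj_of_mono _ g2
      have h3 := up_up (X.LS m b) (Nat.le_add_right k' n) (Nat.le_succ (k' + n)) f
      exact h3.trans hf
  obtain ⟨G, _, S, ⟨t⟩⟩ := hm₁ m hm1 k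
  refine Sparse.mono t.sparse 0 fun b hb he => ?_
  obtain ⟨e, he⟩ := he
  refine ⟨resE (X.res m b) e, fun D hD hD0 => he ?_⟩
  obtain ⟨g1, g2⟩ := hm₀ m hm0 b hb
  apply inj_of_epi ((X.res m b).app k') g2
  have h3 : up (X.LS m b) h1 (resE (X.res m b) e) = 0 := by
    obtain ⟨n, hn⟩ : ∃ n, k' + n = max D k' :=
      ⟨max D k' - k', Nat.add_sub_cancel' (le_max_right _ _)⟩
    apply hpeel b n
    rw [up_up]
    have hDn : D ≤ k' + n := by
      rw [hn]
      exact le_max_left _ _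
    have h4 : up (X.LS m b) (hD.trans hDn) (resE (X.res m b) e) = 0 := by
      rw [← up_up (X.LS m b) hD hDn]
      have h5 : up (X.LS m b) hD (resE (X.res m b) e) = 0 := hD0
      rw [h5, up_zero]
    exact h4
  rw [← resE_up] at h3
  exact h3

/-- classes in `Ext^1(F, O(Z_k - b x))` are killed by a section of `O(Z_k' - Z_k)`, except for a
sparse set of `b` -/
theorem few : ∀ (n : ℕ) (F : C), X.rk F ≤ n → X.Semi F → ∀ k : ℕ,
    ∃ (k' : ℕ) (h : k ≤ k'), X.Few F k k' h := by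
  intro n
  induction n with
  | zero =>
    intro F hr hF k
    rcases X.jordan F hF with hst | ⟨S, hS, rfl, h1, h3, h4, h5⟩
    · exact X.stable_case F hF hst k
    · omega
  | succ n ih =>
    intro F hr hF k
    rcases X.jordan F hF with hst | ⟨S, hS, rfl, h1, h3, r1, r3⟩
    · exact X.stable_case F hF hst k
    · obtain ⟨k₂, hk₂, g1⟩ := ih S.X₁ (by omega) h1 k
      obtain ⟨k₃, hk₃, g3⟩ := ih S.X₃ (by omega) h3 k₂
      refine ⟨k₃, hk₂.trans hk₃, Sparse.mono (Sparse.union g1 g3) 0 fun b _ he => ?_⟩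
      obtain ⟨e, he⟩ := he
      by_contra hcon
      push Not at hcon
      obtain ⟨c1, c3⟩ := hcon
      have k1 : (Ext.mk₀ S.f).comp (up (X.L b) hk₂ e) (zero_add 1) = 0 := by
        have := c1 ((Ext.mk₀ S.f).comp e (zero_add 1))
        unfold up at this ⊢
        rw [Ext.comp_assoc_of_third_deg_zero] at this
        exact this
      obtain ⟨y, hy⟩ := Ext.contravariant_sequence_exact₂ hS _ (up (X.L b) hk₂ e) k1
      apply he
      rw [← up_up (X.L b) hk₂ hk₃, ← hy]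
      have := c3 y
      unfold up at this ⊢
      rw [Ext.comp_assoc_of_third_deg_zero, this, Ext.comp_zero]

theorem sparse (F : C) (hF : X.Semi F) (k : ℕ) : Sparse fun b => Alive (X.L b) F k := by
  obtain ⟨k', hk', h⟩ := X.few _ F le_rfl hF k
  exact Sparse.mono h 0 fun b _ ⟨e, he⟩ => ⟨e, he k' hk'⟩

end Sheaves

end Pool.Agent.H76.S
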