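import Pool.Agent.H76.S.Last
import Pool.Agent.H76.S.Step3

/-!
# Nef classes on threefolds with h^(2,1) ≤ 1 (MP_5ee2d0)
-/

namespace Pool.Agent.H76.S

open Pool.Agent.H76.V

/-- a sparse set does not contain all large integers -/
lemma Sparse.exists_nat {A : ℤ → Prop} (hA : Sparse A) (m₀ : ℕ) : ∃ m : ℕ, m₀ ≤ m ∧ ¬ A m := by
  classical
  obtain ⟨n, hn⟩ := hA
  obtain ⟨β, hβ⟩ := hn n
  by_contra hcon
  push Not at hcon
  obtain ⟨t, ht⟩ : ∃ t : ℕ, t = m₀ + β.toNat := ⟨_, rfl⟩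
  have ht1 : β ≤ (t : ℤ) := by
    rw [ht]
    push_cast
    have := Int.self_le_toNat β
    linarith [Int.natCast_nonneg m₀]
  have h1 := hβ t ht1 ((Finset.range n).image fun j : ℕ => (t : ℤ) + j) fun b hb => by
    rw [Finset.mem_image] at hb
    obtain ⟨j, hj, rfl⟩ := hb
    rw [Finset.mem_range] at hj
    have h2 := hcon (t + j) (by omega)
    push_cast at h2
    exact ⟨h2, by linarith [Int.natCast_nonneg j], by
      have : (j : ℤ) ≤ n := by exact_mod_cast hj.le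
      linarith⟩
  rw [Finset.card_image_of_injective, Finset.card_range] at h1
  · exact lt_irrefl _ h1
  · intro i j hij
    simpa using hij

namespace Last

variable {h21 : ℕ} {two : Prop} (Y : Last h21 two)

theorem h2_two (ht : two) (F : Bool) : ∃ n₀, ∀ n, n₀ ≤ n → Y.h F 2 n 0 = 0 := by
  obtain ⟨n₀, hn₀⟩ := Y.fujita ht F
  refine ⟨n₀, fun n hn => ?_⟩
  obtain ⟨j, hj⟩ := Y.serre F n
  have key : ∀ k, Y.h F 2 n 0 ≤ Y.h F 2 n k := by
    intro k
    induction k with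
    | zero => exact le_rfl
    | succ k ih =>
      have h1 := Y.restr F n k
      rw [hn₀ n hn] at h1
      exact ih.trans (by simpa using h1)
  have := key j
  omega

/-- if `H^2(Y, F(n x)) = 0` for infinitely many `n` then `2 ≤ h21` -/
theorem two_le_of (h2 : ∀ F, (F = true → Y.c = 0) → ∀ n₀, ∃ n, n₀ ≤ n ∧ Y.h F 2 n 0 = 0) :
    2 ≤ h21 := by
  have hc : Y.c = 0 := by
    obtain ⟨n₁, hn₁⟩ := Y.top false
    obtain ⟨n, hn, h⟩ := h2 false (by simp) (n₁ + 1)
    have h3 := hn₁ n (by omega)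
    have h0 := Y.kmm n (by omega)
    have hrr := Y.rr n
    rw [h0, h, h3] at hrr
    have hm := Y.miyaoka
    by_contra hne
    have hpos : 0 < Y.c := lt_of_le_of_ne hm (Ne.symm hne)
    have hn' : (0 : ℤ) < n := by exact_mod_cast (by omega : 0 < n)
    have := mul_pos hn' hpos
    have h1 : (0 : ℤ) ≤ (Y.h false 1 n 0 : ℤ) := Int.natCast_nonneg _
    push_cast at hrr
    linarith
  obtain ⟨n₁, hn₁⟩ := Y.top true
  obtain ⟨n₂, hn₂⟩ := Y.lp
  obtain ⟨n, hn, h⟩ := h2 true (fun _ => hc) (n₁ + n₂)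
  have h3 := hn₁ n (by omega)
  have h0 := hn₂ n (by omega)
  have hrr := Y.rrT hc n
  rw [h0, h, h3, Y.forms] at hrr
  have ha := Y.defo
  have hb := Y.pic
  have hd := Y.two_le
  push_cast at hrr
  have : (0 : ℤ) ≤ (Y.h true 1 n 0 : ℤ) := Int.natCast_nonneg _
  have : (0 : ℤ) ≤ (Y.h true 0 0 0 : ℤ) := Int.natCast_nonneg _
  omega

include Y in
theorem le_two (ht : two) : 2 ≤ h21 :=
  Y.two_le_of fun F _ n₀ => by
    obtain ⟨n₁, hn₁⟩ := Y.h2_two ht F
    exact ⟨n₀ + n₁, by omega, hn₁ _ (by omega)⟩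

/-- the main theorem: a nef class which is not semiample exists only if `2 ≤ h21` -/
theorem le (Y : Last h21 two) : 2 ≤ h21 := by
  by_cases ht : two
  · exact Y.le_two ht
  · obtain ⟨C, _, _, _, X, hX⟩ := Y.one ht
    refine Y.two_le_of fun F hF n₀ => ?_
    obtain ⟨G, k, hG, hb⟩ := hX F hF
    obtain ⟨n, hn, hn'⟩ := Sparse.exists_nat (X.sparse G hG k) n₀
    refine ⟨n, hn, ?_⟩
    by_contra hne
    exact hn' (hb n hne)

end Last


end Pool.Agent.H76.S
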