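import Mathlib

/-!
# Surfaces with a metric and Hermite-Einstein connections (MP_5ee2d0, Theorem V, step 1)
-/

namespace Pool.Agent.H76.S

open MeasureTheory
open scoped Matrix ENNReal

/-- the square of the Hilbert-Schmidt norm -/
noncomputable def hs {R : ℕ} (A : Matrix (Fin R) (Fin R) ℂ) : ℝ := ∑ i, ∑ j, ‖A i j‖ ^ 2

/-- A smooth projective simply connected surface `S` with a Kähler metric and a covering by finitely
many small geodesically convex open balls. `S` (with the normalised volume) is identified with `ℝ`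
(with the probability measure `μ`) by a Borel isomorphism; the choices of centres of the balls and the
parameters for the points of geodesic triangles are parametrised by `ℝ`, with the same measure. The
centre of each ball is a random point of a smaller ball, and these points are independent. Unitary frames of the bundles of forms are
chosen at all points, depending on the point in a measurable way. -/
structure Atlas where
  /-- the number of balls -/
  v : ℕ
  μ : Measure ℝ
  prob : IsProbabilityMeasure μ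
  B : ℕ → Set ℝ
  fin : ∀ a, v ≤ a → B a = ∅
  meas_B : ∀ a, MeasurableSet (B a)
  /-- `S` is simply connected: coverings of `S` have sections -/
  simply : ∀ P : ℕ → ℕ → ℕ → ℕ,
    (∀ a b c n, μ (B a ∩ B b ∩ B c) ≠ 0 → P b c (P a b n) = P a c n) →
      ∃ s : ℕ → ℕ, ∀ a b, (B a ∩ B b).Nonempty → P a b (s a) = s b
  /-- a constant -/
  D : ℝ
  /-- the points of the geodesic triangle whose vertices are the centres of two balls and a given
  point of both balls, and of the geodesic from the first centre to this point -/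
  cone : ℕ → ℕ → ℝ × ℝ × ℝ → ℝ
  meas_cone : ∀ a b, Measurable (cone a b)
  /-- These random points have bounded densities, since for given values of the parameters and of the
  other vertices the map from the vertex with the largest weight to the point is a diffeomorphism
  with bounded inverse. -/
  dens : ∀ a b, (μ.prod ((μ.restrict (B a ∩ B b)).prod μ)).map (cone a b) ≤ ENNReal.ofReal D • μ
  /-- a partition of unity, and the two components of its image under the Dolbeault operator (zero for
  `l ≥ 3`) -/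
  χ : ℕ → ℕ → ℝ → ℂ
  meas_χ : ∀ a l, Measurable (χ a l)
  χ_nonneg : ∀ a q, χ a 0 q = ‖χ a 0 q‖
  χ_supp : ∀ a l q, q ∉ B a → χ a l q = 0
  χ_le : ∀ a l q, ‖χ a l q‖ ≤ D
  χ_sum : ∀ l q, ∑ a ∈ Finset.range v, χ a l q = if l = 0 then 1 else 0
  /-- the geometric genus -/
  pg : ℕ
  /-- an orthonormal basis of `H^0(S, K_S)` (zero for `j ≥ pg`) -/
  ω : ℕ → ℝ → ℂ
  meas_ω : ∀ j, Measurable (ω j)
  ω_le : ∀ j q, ‖ω j q‖ ≤ D
  norm_ω : ∀ j < pg, ∫ q, ‖ω j q‖ ^ 2 ∂μ = 1

/-- A holomorphic vector bundle `E` of rank `R` on `S` with a unitary connection whose curvature `F`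
is orthogonal to the Kähler form, with a unitary frame at every point; `k` is the dimension of
`H^0(S, E ⊗ K_S)`. -/
structure Connection (A : Atlas) (R k : ℕ) (e : ℝ) where
  e_nonneg : 0 ≤ e
  /-- an orthonormal basis of `H^0(S, E ⊗ K_S)` -/
  u : Fin k → ℝ → Fin R → ℂ
  meas_u : ∀ i r, Measurable fun q => u i q r
  orth : ∀ i j, ∫ q, ∑ r, star (u i q r) * u j q r ∂A.μ = if i = j then 1 else 0
  /-- Weitzenböck and Moser: `sup |u|^2 ≤ D ‖u‖^2` for all holomorphic sections, so the Bergman kernel
  is bounded by `D` -/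
  bergman : ∀ q w, ∑ i, ‖w ⬝ᵥ u i q‖ ^ 2 ≤ A.D * ∑ r, ‖w r‖ ^ 2
  /-- parallel transport from the centre of the second ball to that of the first ball -/
  P : ℝ → ℕ → ℕ → Matrix (Fin R) (Fin R) ℂ
  /-- parallel transport from a point of the ball to its centre, and the components of its image under
  the Dolbeault operator -/
  Y : ℝ → ℕ → ℕ → ℝ → Matrix (Fin R) (Fin R) ℂ
  unit_P : ∀ θ a b, P θ a b ∈ Matrix.unitaryGroup (Fin R) ℂ
  unit_Y : ∀ θ a q, Y θ a 0 q ∈ Matrix.unitaryGroup (Fin R) ℂ
  meas_Y : ∀ θ a l r s, Measurable fun q => Y θ a l q r s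
  /-- the function `|F|^2` -/
  en : ℝ → ℝ≥0∞
  meas_en : Measurable en
  bdd_en : ∃ M, ∀ q, en q ≤ ENNReal.ofReal M
  energy : lintegral A.μ en ≤ ENNReal.ofReal (A.D * e)
  /-- the holonomy of a geodesic triangle differs from the identity at most by the integral of `|F|`
  over the triangle; the derivative of the radial parallel transport is an integral of `F` over the
  radius -/
  hol : ∀ θ a b, ∀ q ∈ A.B a ∩ A.B b, ENNReal.ofReal
    (hs (Y θ a 0 q - P θ a b * Y θ b 0 q) + hs (Y θ a 1 q) + hs (Y θ a 2 q)) ≤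
      ENNReal.ofReal A.D * ∫⁻ x, en (A.cone a b (θ, q, x)) ∂A.μ
  /-- Spectral gap of the Dolbeault operator for the section `f` of `K_S`. By the Leibniz rule its
  image has the components `g 1` and `g 2`, since the sections `u_i` are holomorphic. -/
  gap : ∀ θ (z : ℕ → Fin R → ℂ) i (w : ℕ → ℕ → ℝ → ℂ) (f : ℝ → ℂ) (g : ℕ → ℝ → ℂ),
    (∀ a l q, w a l q = z a ⬝ᵥ (Y θ a l q *ᵥ u i q)) →
    (∀ q, f q = ∑ a ∈ Finset.range A.v, A.χ a 0 q * w a 0 q) →
    (∀ l q, g l q = ∑ a ∈ Finset.range A.v, (A.χ a l q * w a 0 q + A.χ a 0 q * w a l q)) →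
    ∫ q, ‖f q‖ ^ 2 ∂A.μ ≤ ∑ j ∈ Finset.range A.pg, ‖∫ q, star (A.ω j q) * f q ∂A.μ‖ ^ 2 +
      A.D * ∫ q, (‖g 1 q‖ ^ 2 + ‖g 2 q‖ ^ 2) ∂A.μ


end Pool.Agent.H76.S
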