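import Pool.Agent.H76.S.Defs

/-!
# Sheaves on the threefold and their restrictions to surfaces (MP_5ee2d0, Theorem V)

`X` is a smooth projective simply connected threefold with `K_X ~ 0`, `x` a nef class with `x^2 = 0`
which is not numerically trivial and not semiample, and `h` a very ample class. The prime divisors of
`X` on which `x` is numerically trivial are exceptional divisors of a birational morphism, so the
intersection matrix `h E E'` of these prime divisors is negative definite, and there is a
combination `ζ > 0` of them with `h ζ E < 0` for all of them. Let `Z_0 ≤ Z_1 ≤ ...` be a chain of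
effective divisors, `Z_(k+1) = Z_k + D_k` for one of these prime divisors `D_k`, which contains all
multiples of `ζ`. Then each combination of these prime divisors is contained in some `Z_k`, and for
every `a` the inequality `h Z_(k+1) D_k < - a h^2 D_k` holds for all large `k`. If there are no such
prime divisors then `Z_k = 0` for all `k`.
-/

open CategoryTheory CategoryTheory.Limits CategoryTheory.Abelian

namespace Pool.Agent.H76.S

/-- some class in `Ext^1(F, A_k)` has a nonzero image in `Ext^1(F, A_k')` for all `k' ≥ k` -/
def Alive {C : Type} [Category.{0} C] [Abelian C] [HasExt.{0} C] (A : ℕ ⥤ C) (F : C) (k : ℕ) :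
    Prop :=
  ∃ e : Ext F (A.obj k) 1, ∀ k' (h : k ≤ k'), e.comp (Ext.mk₀ (A.map (homOfLE h))) (add_zero 1) ≠ 0

/-- `C` is a small category which is equivalent to the category of coherent sheaves on `X`. -/
structure Sheaves (C : Type) [Category.{0} C] [Abelian C] [HasExt.{0} C] where
  /-- One of the finitely many quotients `F_j / F_i` of fixed Jordan-Hölder filtrations of the sheaves
  `O` and `T_X`, which are semistable for the class `x h` (Campana and Păun). So all these sheaves are
  torsion free and semistable of slope zero. -/
  Semi : C → Prop
  /-- stable for the class `x h` -/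
  Stable : C → Prop
  /-- the rank -/
  rk : C → ℕ
  jordan : ∀ F, Semi F → Stable F ∨ ∃ S : ShortComplex C, S.ShortExact ∧ S.X₂ = F ∧
    Semi S.X₁ ∧ Semi S.X₃ ∧ rk S.X₁ < rk F ∧ rk S.X₃ < rk F
  /-- the sheaves `O(Z_k - b x)` with the multiplications by the sections of `O(Z_k' - Z_k)` -/
  L : ℤ → ℕ ⥤ C
  /-- the sheaves `O_S(Z_k - b x)` on a very general surface `S` in `|m h|` -/
  LS : ℕ → ℤ → ℕ ⥤ C
  /-- restriction to `S` -/
  res : ∀ m b, L b ⟶ LS m b
  /-- The kernel of the restriction is `O(Z_k - b x - m h)`, and `Ext^1(F, O(Z_k - b x - m h))` is dual
  to `H^2(X, F(b x + m h - Z_k))` (Serre duality), which is zero (Fujita's vanishing theorem). -/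
  fujita : ∀ F, Semi F → ∀ k, ∃ m₀, ∀ m, m₀ ≤ m → ∀ b : ℤ, 0 ≤ b → Epi ((res m b).app k) ∧
    ∀ e : Ext F (kernel ((res m b).app k)) 1, e = 0
  /-- The cokernel of `O_S(Z_k - b x) → O_S(Z_(k+1) - b x)` is the invertible sheaf
  `O_D(Z_(k+1) - b x)` of degree `m h Z_(k+1) D_k` on the curve `D = S ∩ D_k`, which is integral by
  Bertini's theorem. If `F(a h)` is generated by global sections then the image of a nonzero map from
  `F` to a torsion free sheaf of rank one on `D` has degree at least `- a h D = - a m h^2 D_k`. -/
  degree : ∀ F, Semi F → ∃ k₀, ∀ m b k, 0 < m → k₀ ≤ k →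
    Mono ((LS m b).map (homOfLE (Nat.le_succ k))) ∧
      ∀ φ : F ⟶ cokernel ((LS m b).map (homOfLE (Nat.le_succ k))), φ = 0
  /-- Langer's restriction theorem (for `h` and the nef class `x`): the restriction of a stable sheaf
  `F` to `S` is stable for `x|S`. The surface `S` is simply connected (Lefschetz), and its Picard group
  is that of `X` (Noether, Lefschetz, since `p_g(S) > 0 = h^(2,0)(X)`). The curves of degree zero for
  `x` belong to countably many families. None of them covers `X`, since otherwise `x` is semiample
  (nef reduction), and `S` contains none of those which do not move. If a curve `C` of a family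
  which covers a prime divisor `W` lies on `S` then `C = W ∩ S` (Bertini), and `x` is numerically
  trivial on `W` (Hodge index theorem). So the curves of degree zero on `S` are the curves `D ∩ S` for
  the prime divisors `D` on which `x` is numerically trivial; since their intersection matrix is
  negative definite, no positive multiple of `x|S` is effective. Therefore one has the data `Test`
  for `Q = (F|S)(-Z_k)` and `N = x|S`: `Ext^1(F, O_S(Z_k' - b x))` on `X` is the group
  `Ext^1(Q, O_S(Z_k' - Z_k - b x))` on `S`. -/
  langer : ∀ F, Semi F → Stable F → ∃ m₀, ∀ m, m₀ ≤ m → ∀ k,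
    ∃ (G : Type) (_ : AddCommGroup G) (S : Surface G), Nonempty (Test S fun b => Alive (LS m b) F k)

end Pool.Agent.H76.S
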